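import Pool.Agent.MP_cce4c9_lc.H7.Base

/-! Reduction of places and of principal divisors. -/

set_option autoImplicit false

open WithZero
open scoped IntermediateField

namespace Pool.Agent.MP_cce4c9_lc.H40

open Pool.Agent.MP_cce4c9_lc.H87 Pool.Agent.MP_cce4c9_lc.H7

variable {k K Ω : Type} [Field k] [Field K] [Field Ω] [Algebra k K] [Algebra k Ω]

section Ring

variable {B : BCD k K Ω} (P : KP k Ω)

theorem const_map (B : BCD k K Ω) (c : k) :
    algebraMap K B.F (algebraMap k K c) = algebraMap Ω B.F (algebraMap k Ω c) := by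
  rw [← IsScalarTower.algebraMap_apply, ← IsScalarTower.algebraMap_apply]

/-- The valuation ring of the reduction of a place. -/
def redRing (w : Place Ω B.F) (H : w.Res) : ValuationSubring K where
  carrier := {h | w.val (algebraMap K B.F h) ≤ 1 ∧ w.ev (algebraMap K B.F h) ∈ P.O}
  mul_mem' := fun {a b} ha hb => by
    refine ⟨?_, ?_⟩
    · rw [map_mul, map_mul]; exact mul_le_one' ha.1 hb.1
    · rw [map_mul, H.ev_mul ha.1 hb.1]; exact mul_mem ha.2 hb.2
  one_mem' := by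
    refine ⟨?_, ?_⟩
    · simp
    · rw [map_one, Place.ev_one]; exact one_mem _
  add_mem' := fun {a b} ha hb => by
    refine ⟨?_, ?_⟩
    · rw [map_add]; exact (w.val.map_add _ _).trans (max_le ha.1 hb.1)
    · rw [map_add, H.ev_add ha.1 hb.1]; exact add_mem ha.2 hb.2
  zero_mem' := by
    refine ⟨?_, ?_⟩
    · simp
    · rw [map_zero, Place.ev_zero]; exact zero_mem _
  neg_mem' := fun {a} ha => by
    refine ⟨?_, ?_⟩
    · rw [map_neg, Valuation.map_neg]; exact ha.1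
    · rw [map_neg, H.ev_neg ha.1]; exact neg_mem ha.2
  mem_or_inv_mem' := fun a => by
    rcases lt_trichotomy (w.val (algebraMap K B.F a)) 1 with h | h | h
    · exact Or.inl ⟨h.le, by rw [w.ev_of_lt h]; exact zero_mem _⟩
    · rcases P.O.mem_or_inv_mem (w.ev (algebraMap K B.F a)) with h1 | h1
      · exact Or.inl ⟨h.le, h1⟩
      · refine Or.inr ⟨?_, ?_⟩
        · rw [map_inv₀, map_inv₀, h, inv_one]
        · rw [map_inv₀, H.ev_inv h]; exact h1
    · have h1 : w.val (algebraMap K B.F a⁻¹) < 1 := by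
        rw [map_inv₀, map_inv₀]; exact inv_lt_one_of_one_lt₀ h
      exact Or.inr ⟨h1.le, by rw [w.ev_of_lt h1]; exact zero_mem _⟩

theorem mem_redRing (w : Place Ω B.F) (H : w.Res) (h : K) : h ∈ redRing P w H ↔
    w.val (algebraMap K B.F h) ≤ 1 ∧ w.ev (algebraMap K B.F h) ∈ P.O := Iff.rfl

theorem const_redRing (w : Place Ω B.F) (H : w.Res) (c : k) :
    algebraMap k K c ∈ redRing P w H := by
  rw [mem_redRing, const_map, Place.ev_const]
  exact ⟨w.const_le _, P.mem c⟩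

theorem redRing_ne (w : Place Ω B.F) (H : w.Res) {t : K} (ht : t ∉ Set.range (algebraMap k K)) :
    redRing P w H ≠ ⊤ := by
  intro e
  have hall : ∀ h : K, w.val (algebraMap K B.F h) ≤ 1 ∧ w.ev (algebraMap K B.F h) ∈ P.O :=
    fun h => (mem_redRing P w H h).1 (e ▸ ValuationSubring.mem_top h)
  set c : k := P.ρ ⟨_, (hall t).2⟩ with hc
  have hu : t - algebraMap k K c ≠ 0 := fun h => ht ⟨c, (sub_eq_zero.1 h).symm⟩
  have h1 : P.ρ ⟨_, (hall (t - algebraMap k K c)).2⟩ = 0 := by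
    have : (⟨_, (hall (t - algebraMap k K c)).2⟩ : P.O) = ⟨_, (hall t).2⟩ - ⟨_, P.mem c⟩ := by
      apply Subtype.ext
      show w.ev (algebraMap K B.F (t - algebraMap k K c)) =
        w.ev (algebraMap K B.F t) - algebraMap k Ω c
      rw [map_sub, H.ev_sub (hall t).1 (hall _).1, const_map, Place.ev_const]
    rw [this, map_sub, P.const, ← hc, sub_self]
  have h2 : (⟨_, (hall (t - algebraMap k K c)).2⟩ : P.O) *
      ⟨_, (hall (t - algebraMap k K c)⁻¹).2⟩ = 1 := by
    apply Subtype.ext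
    show w.ev (algebraMap K B.F (t - algebraMap k K c)) *
      w.ev (algebraMap K B.F (t - algebraMap k K c)⁻¹) = 1
    rw [← H.ev_mul (hall _).1 (hall _).1, ← map_mul, mul_inv_cancel₀ hu, map_one, Place.ev_one]
  have h3 := congrArg P.ρ h2
  rw [map_mul, h1, zero_mul, map_one] at h3
  exact zero_ne_one h3

theorem red_ev (w : Place Ω B.F) (H : w.Res) (v : Place k K) (Hv : v.Res)
    (hv : ∀ h, h ∈ redRing P w H ↔ v.val h ≤ 1) (h : K) (h1 : v.val h ≤ 1) :
    P.Rd (w.ev (algebraMap K B.F h)) (v.ev h) := by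
  have hlt := Hv.ev_spec h1
  set c := v.ev h with hc
  set u := h - algebraMap k K c with hu
  have hm := (mem_redRing P w H u).1 ((hv u).2 hlt.le)
  have hh := (mem_redRing P w H h).1 ((hv h).2 h1)
  have h0 : P.ρ ⟨_, hm.2⟩ = 0 := by
    by_contra hne
    have ha : w.ev (algebraMap K B.F u) ≠ 0 := fun e => hne (by
      have : (⟨_, hm.2⟩ : P.O) = 0 := Subtype.ext e
      rw [this, map_zero])
    have hw : w.val (algebraMap K B.F u) = 1 :=
      le_antisymm hm.1 (not_lt.1 fun hl => ha (w.ev_of_lt hl))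
    have hval : P.O.valuation (w.ev (algebraMap K B.F u)) = 1 :=
      le_antisymm ((P.O.valuation_le_one_iff _).2 hm.2)
        (not_lt.1 fun hl => hne ((P.ker ⟨_, hm.2⟩).2 hl))
    have hinv : u⁻¹ ∈ redRing P w H := by
      rw [mem_redRing, map_inv₀, map_inv₀, hw, inv_one, H.ev_inv hw,
        ← P.O.valuation_le_one_iff, map_inv₀, hval, inv_one]
      exact ⟨le_rfl, le_rfl⟩
    have hu0 : u ≠ 0 := fun e => ha (by rw [e, map_zero, Place.ev_zero])
    have h2 := (hv _).1 hinv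
    rw [map_inv₀, inv_le_one₀ (zero_lt_iff.2 (v.val_ne hu0))] at h2
    exact absurd hlt (not_lt.2 h2)
  refine ⟨hh.2, ?_⟩
  have : (⟨_, hh.2⟩ : P.O) = ⟨_, hm.2⟩ + ⟨_, P.mem c⟩ := by
    apply Subtype.ext
    show w.ev (algebraMap K B.F h) = w.ev (algebraMap K B.F u) + algebraMap k Ω c
    rw [hu, map_sub, H.ev_sub hh.1 (by rw [const_map]; exact w.const_le _), const_map,
      Place.ev_const, sub_add_cancel]
  rw [this, map_add, h0, P.const, zero_add]

end Ring

section Gauss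

variable {B : BCD k K Ω} {P : KP k Ω} (R : Gauss B P)

/-- `x` lies in the Gauss ring and reduces to `y`. -/
def GR (x : B.F) (y : K) : Prop := ∃ h : x ∈ R.G, R.red ⟨x, h⟩ = y

variable {R}

theorem GR.one : GR R 1 1 := ⟨one_mem _, map_one R.red⟩

theorem GR.mul {x x' : B.F} {y y' : K} (h : GR R x y) (h' : GR R x' y') :
    GR R (x * x') (y * y') := by
  obtain ⟨h, rfl⟩ := h
  obtain ⟨h', rfl⟩ := h'
  exact ⟨mul_mem h h', by rw [← map_mul]; rfl⟩

theorem GR.sub {x x' : B.F} {y y' : K} (h : GR R x y) (h' : GR R x' y') :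
    GR R (x - x') (y - y') := by
  obtain ⟨h, rfl⟩ := h
  obtain ⟨h', rfl⟩ := h'
  exact ⟨sub_mem h h', by rw [← map_sub]; rfl⟩

theorem GR.inv {x : B.F} {y : K} (h : GR R x y) (hy : y ≠ 0) : GR R x⁻¹ y⁻¹ := by
  obtain ⟨h, rfl⟩ := h
  have hval : R.G.valuation x = 1 :=
    le_antisymm ((R.G.valuation_le_one_iff _).2 h) (not_lt.1 fun hl => hy ((R.ker ⟨x, h⟩).2 hl))
  have hx : x ≠ 0 := fun e => by rw [e, map_zero] at hval; exact zero_ne_one hval
  have hi : x⁻¹ ∈ R.G := by rw [← R.G.valuation_le_one_iff, map_inv₀, hval, inv_one]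
  refine ⟨hi, eq_inv_of_mul_eq_one_right ?_⟩
  rw [← map_mul, ← map_one R.red]
  congr 1
  exact Subtype.ext (mul_inv_cancel₀ hx)

theorem GR.pow {x : B.F} {y : K} (h : GR R x y) (n : ℕ) : GR R (x ^ n) (y ^ n) := by
  induction n with
  | zero => simpa using GR.one
  | succ n ih => rw [pow_succ, pow_succ]; exact ih.mul h

theorem GR.zpow {x : B.F} {y : K} (h : GR R x y) (hy : y ≠ 0) (n : ℤ) : GR R (x ^ n) (y ^ n) := by
  cases n with
  | ofNat n => simpa using h.pow n
  | negSucc n => rw [zpow_negSucc, zpow_negSucc]; exact (h.pow _).inv (pow_ne_zero _ hy)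

theorem GR.prod {ι : Type} (A : Finset ι) {x : ι → B.F} {y : ι → K}
    (h : ∀ i ∈ A, GR R (x i) (y i)) : GR R (∏ i ∈ A, x i) (∏ i ∈ A, y i) := by
  classical
  induction A using Finset.induction_on with
  | empty => simpa using GR.one
  | insert a A ha ih =>
    rw [Finset.prod_insert ha, Finset.prod_insert ha]
    exact (h a (Finset.mem_insert_self _ _)).mul (ih fun i hi => h i (Finset.mem_insert_of_mem hi))

theorem GR.base (h : K) : GR R (algebraMap K B.F h) h := ⟨R.memK h, R.redK h⟩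

theorem GR.const {a : Ω} {c : k} (h : P.Rd a c) : GR R (algebraMap Ω B.F a) (algebraMap k K c) := by
  obtain ⟨h, rfl⟩ := h
  exact ⟨(R.memΩ a).2 h, R.redΩ ⟨a, h⟩⟩

theorem GR.of_const {a : Ω} {y : K} (h : GR R (algebraMap Ω B.F a) y) :
    y ∈ Set.range (algebraMap k K) := by
  obtain ⟨h, rfl⟩ := h
  exact ⟨_, (R.redΩ ⟨a, (R.memΩ a).1 h⟩).symm⟩

end Gauss

open Classical in
theorem ord_formula (hR : ∀ v : Place k K, v.Res) (z : Place k K) {s : K}
    (hs : s ∉ Set.range (algebraMap k K)) (hz : z.ord s = 1) {ι : Type} (A : Finset ι)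
    (p : ι → Place k K) (m : ι → ℤ) (hp : ∀ i ∈ A, p i ≠ z → (p i).val s = 1) {c : k}
    (hc : c ≠ 0) :
    z.ord (algebraMap k K c * ∏ i ∈ A, (s - algebraMap k K ((p i).ev s)) ^ m i) =
      ∑ i ∈ A, if p i = z then m i else 0 := by
  have hne : ∀ a : k, s - algebraMap k K a ≠ 0 := fun a h => hs ⟨a, (sub_eq_zero.1 h).symm⟩
  have hs0 : s ≠ 0 := by simpa using hne 0
  have hlt : z.val s < 1 := (z.val_lt_one (z.val_ne hs0)).2 (by omega)
  have h1 : ∀ i ∈ A, (s - algebraMap k K ((p i).ev s)) ^ m i ≠ 0 :=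
    fun i _ => zpow_ne_zero _ (hne _)
  rw [z.ord_mul (z.val_ne (by simpa using hc)) (z.val_ne (Finset.prod_ne_zero_iff.2 h1)),
    Place.ord_const, zero_add, z.ord_prod A _ h1]
  refine Finset.sum_congr rfl fun i hi => ?_
  rw [z.ord_zpow]
  split_ifs with h
  · rw [h, z.ev_of_lt hlt, map_zero, sub_zero, hz, mul_one]
  · have h2 := z.triv _ ((hR _).ev_ne_zero (hp i hi h))
    rw [z.ord_of_val_one, mul_zero]
    rw [Valuation.map_sub_eq_of_lt_right _ (by rw [h2]; exact hlt), h2]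

theorem red : StmtDVR → StmtGAUSS → StmtNRED → StmtNP → StmtRED := by
  classical
  intro hDVR hG hN hNP k K Ω _ _ _ _ _ _ _ B P hK
  obtain ⟨R⟩ := hG k K Ω B P
  obtain ⟨hF, hN⟩ := hN k K Ω B hK
  obtain ⟨t, ht, -⟩ := id hK
  have ht' : t ∉ Set.range (algebraMap k K) := by
    rintro ⟨c, rfl⟩
    exact ht (isAlgebraic_algebraMap c)
  choose rp hrp using fun w : Place Ω B.F => hDVR k K hK (redRing P w (res hF w))
    (const_redRing P w _) (redRing_ne P w _ ht')
  have hev := fun (w : Place Ω B.F) => red_ev P w (res hF w) (rp w) (res hK _) (hrp w)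
  refine ⟨{ R with
    rp := rp
    rp_iff := fun w h => (hrp w h).symm
    rp_ev := hev
    rt := fun Φ hΦ => ?_ }⟩
  ext z
  have hΦ0 : (Φ : B.F) ≠ 0 := fun e => hΦ (by
    have : Φ = 0 := Subtype.ext e
    rw [this, map_zero])
  obtain ⟨s, hs0, hs⟩ := apx_ord (insert z ((dv k (R.red Φ)).support ∪
    (dv Ω (Φ : B.F)).support.image rp)) fun v => if v = z then 1 else 0
  have hz : z.ord s = 1 := by simpa using hs z (Finset.mem_insert_self _ _)
  have hsc : s ∉ Set.range (algebraMap k K) := by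
    rintro ⟨c, rfl⟩
    simp at hz
  have hne : ∀ a : k, s - algebraMap k K a ≠ 0 := fun a h => hsc ⟨a, (sub_eq_zero.1 h).symm⟩
  have hone : ∀ v ∈ (dv k (R.red Φ)).support ∪ (dv Ω (Φ : B.F)).support.image rp,
      v ≠ z → v.val s = 1 := fun v hv h =>
    (v.val_one_iff (v.val_ne hs0)).2 (by simpa [h] using hs v (Finset.mem_insert_of_mem hv))
  have hle : ∀ v ∈ (dv k (R.red Φ)).support ∪ (dv Ω (Φ : B.F)).support.image rp,
      v.val s ≤ 1 := fun v hv => by
    by_cases h : v = z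
    · rw [h]; exact (z.val_le_one (z.val_ne hs0)).2 (by omega)
    · exact (hone v hv h).le
  obtain ⟨hS, hN⟩ := hN s hsc
  obtain ⟨⟨c, hc, e1⟩, -⟩ := hNP k K hK _ s hsc rfl (R.red Φ) hΦ
  obtain ⟨⟨C, -, e2⟩, -⟩ := hNP Ω B.F hF _ _ hS rfl (Φ : B.F) hΦ0
  rw [Finset.filter_true_of_mem fun v hv => hle v (Finset.mem_union_left _ hv)] at e1
  have hw : ∀ w ∈ (dv Ω (Φ : B.F)).support, (rp w).val s ≤ 1 := fun w hw =>
    hle _ (Finset.mem_union_right _ (Finset.mem_image_of_mem _ hw))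
  rw [Finset.filter_true_of_mem fun w h => ((hrp w s).2 (hw w h)).1] at e2
  have g1 : GR R _ _ := hN P R Φ
  have g2 : GR R (∏ w ∈ (dv Ω (Φ : B.F)).support, (algebraMap K B.F s -
      algebraMap Ω B.F (w.ev (algebraMap K B.F s))) ^ w.ord (Φ : B.F))
      (∏ w ∈ (dv Ω (Φ : B.F)).support, (s - algebraMap k K ((rp w).ev s)) ^ w.ord (Φ : B.F)) :=
    GR.prod _ fun w h => ((GR.base s).sub (GR.const (hev w s (hw w h)))).zpow (hne _) _
  have n2 : (∏ w ∈ (dv Ω (Φ : B.F)).support,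
      (s - algebraMap k K ((rp w).ev s)) ^ w.ord (Φ : B.F)) ≠ 0 :=
    Finset.prod_ne_zero_iff.2 fun w _ => zpow_ne_zero _ (hne _)
  have n3 : (∏ w ∈ (dv Ω (Φ : B.F)).support, (algebraMap K B.F s -
      algebraMap Ω B.F (w.ev (algebraMap K B.F s))) ^ w.ord (Φ : B.F)) ≠ 0 :=
    Finset.prod_ne_zero_iff.2 fun w _ => zpow_ne_zero _ fun h => hS ⟨_, (sub_eq_zero.1 h).symm⟩
  have g3 := g1.mul (g2.inv n2)
  rw [e2, mul_inv_cancel_right₀ n3] at g3
  obtain ⟨c', hc'⟩ := g3.of_const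
  have e3 := (eq_mul_inv_iff_mul_eq₀ n2).1 hc'
  have n1 : (Algebra.norm k⟮s⟯ (R.red Φ) : K) ≠ 0 := by
    rw [e1]
    exact mul_ne_zero (by simpa using hc)
      (Finset.prod_ne_zero_iff.2 fun w _ => zpow_ne_zero _ (hne _))
  have hc0 : c' ≠ 0 := fun e => n1 (by rw [← e3, e, map_zero, zero_mul])
  have o1 := ord_formula (res hK) z hsc hz (dv k (R.red Φ)).support id
    (fun v => v.ord (R.red Φ)) (fun v hv => hone v (Finset.mem_union_left _ hv)) hc
  have o2 := ord_formula (res hK) z hsc hz (dv Ω (Φ : B.F)).support rp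
    (fun w => w.ord (Φ : B.F))
    (fun w h => hone _ (Finset.mem_union_right _ (Finset.mem_image_of_mem _ h))) hc0
  rw [e3, e1] at o2
  simp only [id] at o1
  rw [o2] at o1
  rw [Finsupp.mapDomain, Finsupp.sum_apply, Finsupp.sum]
  simp only [Finsupp.single_apply, dv_ap hF]
  rw [o1, Finset.sum_ite_eq']
  split_ifs with h
  · exact dv_ap hK _ _
  · exact Finsupp.notMem_support_iff.1 h

end Pool.Agent.MP_cce4c9_lc.H40
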